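import Pool.Agent.Helper85.NS.Rows
import Pool.Agent.Helper43.CL.Dig

/-!
# Project RC, SHARP, cell engine: the shift form as a block of row pairs

`NF_dt`: the form by its rows. `NF_edge`: in the edge frame, `NF = <G1A, gA> + <G2A, gB>`.
`fn4_sum`: two scalar products as a sum of `4 len w` real products. `cat4`: four packed sequences in one number.
`col4_LR`: the rows of the packed columns. `LB_dt`: two scalar products as one block (helper25's `Blk.bl`).
`NF_LB`: the block of the shift form, closed columns `cG`, `cN`.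
-/

set_option autoImplicit false

namespace Pool.Agent.Helper77.NS

open Helper49.LT hiding sg
open Helper49.RC (om)
open Helper95.RC
open Helper95.SH
open Helper85.NS
open Helper43.CL (LB LB.congr LB.blD okDig eW)
open Helper54.RC.Fast (FP len len_eq winF)
open Pool.Agent.Helper99.RC (ps)
open Helper96.SH (dz)
open Helper25.SH.Mat (Blk row)

/-! ### the form by its rows -/

theorem NF_two (ψ : ℝ → ℝ) (M : ℕ) (a b : ℤ → ℂ) :
    NF ψ M (fun m => a m + a m) (fun m => b m + b m) = 4 * NF ψ M a b := by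
  unfold NF
  have h1 : ∑ m ∈ Finset.Icc (-(M : ℤ)) M, ‖a m + a m + (b m + b m)‖ ^ 2 / (m : ℝ) =
      4 * ∑ m ∈ Finset.Icc (-(M : ℤ)) M, ‖a m + b m‖ ^ 2 / (m : ℝ) := by
    rw [Finset.mul_sum]
    refine Finset.sum_congr rfl fun m _ => ?_
    rw [show a m + a m + (b m + b m) = 2 * (a m + b m) by ring, norm_mul, Complex.norm_ofNat]
    ring
  have h2 : ∑ m ∈ Finset.Icc (-(M : ℤ)) M, ∑ n ∈ Finset.Icc (-(M : ℤ)) M,
        (a m + a m) * (starRingEnd ℂ) (b n + b n) * Kc ψ m n =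
      ((4 : ℝ) : ℂ) * ∑ m ∈ Finset.Icc (-(M : ℤ)) M, ∑ n ∈ Finset.Icc (-(M : ℤ)) M,
        a m * (starRingEnd ℂ) (b n) * Kc ψ m n := by
    rw [Finset.mul_sum]
    refine Finset.sum_congr rfl fun m _ => ?_
    rw [Finset.mul_sum]
    refine Finset.sum_congr rfl fun n _ => ?_
    rw [map_add]
    push_cast
    ring
  rw [h1, h2, Complex.im_ofReal_mul]
  ring

/-- **the form by its rows** -/
theorem NF_dt (ψ : ℝ → ℝ) (M : ℕ) (a b : ℤ → ℂ) :
    NF ψ M a b = dt M a (gNA ψ M a b) + dt M b (gNB ψ M a b) := by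
  have h := NF_ht ψ M a b a b
  rw [NF_two] at h
  linarith

section edge

variable {c : CD} {N K' : ℕ} {p r s : ℤ → ℂ}

/-- **the form in the edge frame** -/
theorem NF_edge (hN : K' ≤ N) (h1 : Sup (K' + 2) (G1A c.P p r s)) (h2 : Sup (K' + 2) (G2A c.P p r s)) :
    NF c.P.ps (N + 3) (C1 c.P p r s) (C2 c.P p r s) =
      dt (K' + 2) (G1A c.P p r s) (gA c N p r s) + dt (K' + 2) (G2A c.P p r s) (gB c N p r s) := by
  have s1 : Sup (N + 2) (G1A c.P p r s) := Sup.mono (by omega) h1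
  have s2 : Sup (N + 2) (G2A c.P p r s) := Sup.mono (by omega) h2
  rw [NF_dt]
  have e1 : dt (N + 3) (C1 c.P p r s) (gNA c.P.ps (N + 3) (C1 c.P p r s) (C2 c.P p r s)) =
      dt (N + 2) (G1A c.P p r s) (gA c N p r s) := by
    have := dt_fam s1 (Real.pi / 3) (gNA c.P.ps (N + 3) (C1 c.P p r s) (C2 c.P p r s))
    rw [← show C1 c.P p r s = fun m : ℤ => ee (-(m : ℝ) * (Real.pi / 3)) * G1A c.P p r s (m - 1) from
      funext fun m => C1_G1A c.P p r s m] at this
    exact this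
  have e2 : dt (N + 3) (C2 c.P p r s) (gNB c.P.ps (N + 3) (C1 c.P p r s) (C2 c.P p r s)) =
      dt (N + 2) (G2A c.P p r s) (gB c N p r s) := by
    have := dt_fam s2 (2 * Real.pi / 3) (gNB c.P.ps (N + 3) (C1 c.P p r s) (C2 c.P p r s))
    rw [← show C2 c.P p r s = fun m : ℤ => ee (-(m : ℝ) * (2 * Real.pi / 3)) * G2A c.P p r s (m - 1) from
      funext fun m => C2_G2A c.P p r s m] at this
    exact this
  rw [e1, e2]
  unfold dt
  rw [win_eq (show K' + 2 ≤ N + 2 by omega) (fun m hm => by rw [h1 m hm, zero_mul]),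
    win_eq (show K' + 2 ≤ N + 2 by omega) (fun m hm => by rw [h2 m hm, zero_mul])]

end edge

/-! ### real products -/

/-- the `4 len w` real functionals: real and imaginary parts of the first array, of the second array -/
noncomputable def fn4 (w : ℕ) (U V : (ℕ → ℝ) → ℤ → ℂ) (c : ℕ) (v : ℕ → ℝ) : ℝ :=
  if c < len w then (U v ((c : ℤ) - w)).re
  else if c < 2 * len w then (U v (((c - len w : ℕ) : ℤ) - w)).im
  else if c < 3 * len w then (V v (((c - 2 * len w : ℕ) : ℤ) - w)).re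
  else (V v (((c - 3 * len w : ℕ) : ℤ) - w)).im

theorem dt_range (w : ℕ) (u X : ℤ → ℂ) : dt w u X = ∑ j ∈ Finset.range (len w),
    ((u ((j : ℤ) - w)).re * (X ((j : ℤ) - w)).re + (u ((j : ℤ) - w)).im * (X ((j : ℤ) - w)).im) := by
  unfold dt
  rw [Complex.re_sum]
  symm
  refine Finset.sum_bij' (i := fun j _ => (j : ℤ) - w) (j := fun n _ => (n + w).toNat) ?_ ?_ ?_ ?_ ?_
  · intro j hj
    rw [Finset.mem_range, len_eq] at hj
    rw [Finset.mem_Icc]
    omega
  · intro n hn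
    rw [Finset.mem_Icc] at hn
    rw [Finset.mem_range, len_eq]
    omega
  · intro j hj
    simp
  · intro n hn
    rw [Finset.mem_Icc] at hn
    omega
  · intro j hj
    simp only [Complex.mul_re, Complex.conj_re, Complex.conj_im]
    ring

theorem sum4 (l : ℕ) (f : ℕ → ℝ) : ∑ c ∈ Finset.range (4 * l), f c =
    ∑ j ∈ Finset.range l, (f j + f (l + j) + f (2 * l + j) + f (3 * l + j)) := by
  rw [show 4 * l = l + (l + (l + l)) by ring, Finset.sum_range_add, Finset.sum_range_add, Finset.sum_range_add,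
    ← Finset.sum_add_distrib, ← Finset.sum_add_distrib, ← Finset.sum_add_distrib]
  refine Finset.sum_congr rfl fun j _ => ?_
  rw [show 2 * l + j = l + (l + j) by ring, show 3 * l + j = l + (l + (l + j)) by ring]
  ring

/-- **the two scalar products as one sum** -/
theorem fn4_sum (w : ℕ) (U V X Y : (ℕ → ℝ) → ℤ → ℂ) (v : ℕ → ℝ) :
    ∑ c ∈ Finset.range (4 * len w), fn4 w U V c v * fn4 w X Y c v = dt w (U v) (X v) + dt w (V v) (Y v) := by
  rw [sum4, dt_range, dt_range, ← Finset.sum_add_distrib]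
  refine Finset.sum_congr rfl fun j hj => ?_
  rw [Finset.mem_range] at hj
  have a0 : ∀ U V : (ℕ → ℝ) → ℤ → ℂ, fn4 w U V j v = (U v ((j : ℤ) - w)).re := fun U V => by
    unfold fn4; rw [if_pos hj]
  have a1 : ∀ U V : (ℕ → ℝ) → ℤ → ℂ, fn4 w U V (len w + j) v = (U v ((j : ℤ) - w)).im := fun U V => by
    unfold fn4
    rw [if_neg (by omega), if_pos (by omega), show len w + j - len w = j by omega]
  have a2 : ∀ U V : (ℕ → ℝ) → ℤ → ℂ, fn4 w U V (2 * len w + j) v = (V v ((j : ℤ) - w)).re := fun U V => by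
    unfold fn4
    rw [if_neg (by omega), if_neg (by omega), if_pos (by omega), show 2 * len w + j - 2 * len w = j by omega]
  have a3 : ∀ U V : (ℕ → ℝ) → ℤ → ℂ, fn4 w U V (3 * len w + j) v = (V v ((j : ℤ) - w)).im := fun U V => by
    unfold fn4
    rw [if_neg (by omega), if_neg (by omega), if_neg (by omega), show 3 * len w + j - 3 * len w = j by omega]
  rw [a0, a0, a1, a1, a2, a2, a3, a3]
  ring

/-! ### four packed sequences in one number -/

/-- digits: `m` of `x1`, `m` of `x2`, `m` of `x3`, `m` of `x4` -/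
def cat4 (b m x1 x2 x3 x4 : ℕ) : ℕ :=
  Nat.add x1 (Nat.shiftLeft (Nat.add x2 (Nat.shiftLeft (Nat.add x3 (Nat.shiftLeft x4 (Nat.mul (Nat.succ b) m)))
    (Nat.mul (Nat.succ b) m))) (Nat.mul (Nat.succ b) m))

theorem dg_eq (b X c : ℕ) : Helper25.SH.Mat.dg b X c = dz b c X := by
  show ((X / (2 ^ (b + 1)) ^ c % 2 ^ (b + 1) : ℕ) : ℤ) - ((2 ^ b : ℕ) : ℤ) =
    ((X >>> ((b + 1) * c) % 2 ^ (b + 1) : ℕ) : ℤ) - 2 ^ b
  rw [Nat.shiftRight_eq_div_pow, pow_mul]
  push_cast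
  rfl

theorem dz_val (b X c : ℕ) : dz b c X = ((X / (2 ^ (b + 1)) ^ c % 2 ^ (b + 1) : ℕ) : ℤ) - ((2 ^ b : ℕ) : ℤ) :=
  (dg_eq b X c).symm

theorem dz_lo {b m x y c : ℕ} (hc : c < m) : dz b c (x + y <<< ((b + 1) * m)) = dz b c x := by
  have hB : 0 < 2 ^ (b + 1) := by positivity
  rw [dz_val, dz_val, Nat.shiftLeft_eq, pow_mul]
  generalize 2 ^ (b + 1) = B at hB
  congr 2
  obtain ⟨k, rfl⟩ : ∃ k, m = c + (k + 1) := ⟨m - c - 1, by omega⟩
  rw [show x + y * B ^ (c + (k + 1)) = x + (y * B ^ k * B) * B ^ c by ring,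
    Nat.add_mul_div_right _ _ (by positivity), Nat.add_mul_mod_self_right]

theorem dz_hi {b m x y c : ℕ} (hx : x < (2 ^ (b + 1)) ^ m) : dz b (m + c) (x + y <<< ((b + 1) * m)) = dz b c y := by
  have hB : 0 < 2 ^ (b + 1) := by positivity
  rw [dz_val, dz_val, Nat.shiftLeft_eq, pow_mul]
  generalize 2 ^ (b + 1) = B at hB hx
  congr 2
  rw [pow_add, ← Nat.div_div_eq_div_mul, Nat.add_mul_div_right _ _ (by positivity), Nat.div_eq_of_lt hx, zero_add]

section cat

variable {b m x1 x2 x3 x4 : ℕ}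

theorem cat4_0 {c : ℕ} (hc : c < m) : dz b c (cat4 b m x1 x2 x3 x4) = dz b c x1 := dz_lo hc

theorem cat4_1 (h1 : x1 < (2 ^ (b + 1)) ^ m) {c : ℕ} (hc : c < m) :
    dz b (m + c) (cat4 b m x1 x2 x3 x4) = dz b c x2 := (dz_hi h1).trans (dz_lo hc)

theorem cat4_2 (h1 : x1 < (2 ^ (b + 1)) ^ m) (h2 : x2 < (2 ^ (b + 1)) ^ m) {c : ℕ} (hc : c < m) :
    dz b (2 * m + c) (cat4 b m x1 x2 x3 x4) = dz b c x3 := by
  rw [show 2 * m + c = m + (m + c) by ring]
  exact (dz_hi h1).trans ((dz_hi h2).trans (dz_lo hc))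

theorem cat4_3 (h1 : x1 < (2 ^ (b + 1)) ^ m) (h2 : x2 < (2 ^ (b + 1)) ^ m) (h3 : x3 < (2 ^ (b + 1)) ^ m) {c : ℕ} :
    dz b (3 * m + c) (cat4 b m x1 x2 x3 x4) = dz b c x4 := by
  rw [show 3 * m + c = m + (m + (m + c)) by ring]
  exact (dz_hi h1).trans ((dz_hi h2).trans (dz_hi h3))

end cat

/-- the packed column: `Z1 i`, `Z2 i` of the window `w` -/
def col4 (b w : ℕ) (Z1 Z2 : ℕ → FP) (i : ℕ) : ℕ := cat4 b (len w) (Z1 i).x (Z1 i).y (Z2 i).x (Z2 i).y

/-- the list `f i, f (i + 1), .., ` of length `n` -/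
def mkL (f : ℕ → ℕ) : ℕ → ℕ → List ℕ
  | 0, _ => []
  | n + 1, i => f i :: mkL f n (Nat.succ i)

theorem mkL_getD (f : ℕ → ℕ) : ∀ (n i j : ℕ), j < n → (mkL f n i).getD j 0 = f (i + j)
  | 0, _, _, h => absurd h (by omega)
  | n + 1, i, 0, _ => rfl
  | n + 1, i, j + 1, h => by
    show (mkL f n (i + 1)).getD j 0 = _
    rw [mkL_getD f n (i + 1) j (by omega), show i + 1 + j = i + (j + 1) by ring]

theorem LR.congr {n : ℕ} {q e : ℝ} {X Y : (ℕ → ℝ) → ℝ} {R T : ℕ → ℤ} (h : LR n q X R e) (h1 : ∀ v, Y v = X v)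
    (h2 : ∀ i < n, T i = R i) : LR n q Y T e := by
  obtain ⟨ρ, a, b⟩ := h
  refine ⟨ρ, fun v hv => (h1 v).trans (a v hv), fun i hi => ?_⟩
  rw [h2 i hi]
  exact b i hi

/-- **the rows of the packed columns** -/
theorem col4_LR {b s n w e : ℕ} {U V : (ℕ → ℝ) → ℤ → ℂ} {Z1 Z2 : ℕ → FP} (h1 : CR b s n w U Z1 e)
    (h2 : CR b s n w V Z2 e) {A : List ℕ} (hA : ∀ i < n, A.getD i 0 = col4 b w Z1 Z2 i) {c : ℕ}
    (hc : c < 4 * len w) : LR n (2 ^ s) (fn4 w U V c) (row b A c) e := by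
  have b1 : ∀ i < n, (Z1 i).x < (2 ^ (b + 1)) ^ (len w) ∧ (Z1 i).y < (2 ^ (b + 1)) ^ (len w) := fun i hi => by
    obtain ⟨ξ, -, k⟩ := h1; exact (k i hi).2.1
  have b2 : ∀ i < n, (Z2 i).x < (2 ^ (b + 1)) ^ (len w) ∧ (Z2 i).y < (2 ^ (b + 1)) ^ (len w) := fun i hi => by
    obtain ⟨ξ, -, k⟩ := h2; exact (k i hi).2.1
  have hr : ∀ i < n, row b A c i = dz b c (col4 b w Z1 Z2 i) := fun i hi => by
    unfold row
    rw [dg_eq, hA i hi]
  by_cases q0 : c < len w
  · refine LR.congr (h1.re q0) (fun v => by unfold fn4; rw [if_pos q0]) fun i hi => ?_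
    rw [hr i hi]
    exact cat4_0 q0
  by_cases q1 : c < 2 * len w
  · obtain ⟨j, rfl⟩ : ∃ j, c = len w + j := ⟨c - len w, by omega⟩
    have hj : j < len w := by omega
    refine LR.congr (h1.im hj) (fun v => ?_) fun i hi => ?_
    · unfold fn4
      rw [if_neg q0, if_pos q1, show len w + j - len w = j by omega]
    · rw [hr i hi]
      exact cat4_1 (b1 i hi).1 hj
  by_cases q2 : c < 3 * len w
  · obtain ⟨j, rfl⟩ : ∃ j, c = 2 * len w + j := ⟨c - 2 * len w, by omega⟩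
    have hj : j < len w := by omega
    refine LR.congr (h2.re hj) (fun v => ?_) fun i hi => ?_
    · unfold fn4
      rw [if_neg q0, if_neg q1, if_pos q2, show 2 * len w + j - 2 * len w = j by omega]
    · rw [hr i hi]
      exact cat4_2 (b1 i hi).1 (b1 i hi).2 hj
  · obtain ⟨j, rfl⟩ : ∃ j, c = 3 * len w + j := ⟨c - 3 * len w, by omega⟩
    have hj : j < len w := by omega
    refine LR.congr (h2.im hj) (fun v => ?_) fun i hi => ?_
    · unfold fn4
      rw [if_neg q0, if_neg q1, if_neg q2, show 3 * len w + j - 3 * len w = j by omega]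
    · rw [hr i hi]
      exact cat4_3 (b1 i hi).1 (b1 i hi).2 (b2 i hi).1

/-! ### the block -/

theorem mkL_length (f : ℕ → ℕ) : ∀ (n i : ℕ), (mkL f n i).length = n
  | 0, _ => rfl
  | n + 1, i => by
    show (mkL f n (i + 1)).length + 1 = _
    rw [mkL_length f n (i + 1)]

section block

variable {b s n w e e' cc : ℕ} {U V X Y : (ℕ → ℝ) → ℤ → ℂ} {Z1 Z2 Y1 Y2 : ℕ → FP} {rs rs' : List ℕ}
  {g : (ℕ → ℝ) → ℝ} {G : ℝ}

/-- **two scalar products of arrays as one block of helper25** -/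
theorem LB_dt (h1 : CR b s n w U Z1 e) (h2 : CR b s n w V Z2 e) (h3 : CR b s n w X Y1 e') (h4 : CR b s n w Y Y2 e')
    (hl : rs.length = 4 * len w) (hl' : rs'.length = 4 * len w)
    (kA : okDig b rs (mkL (col4 b w Z1 Z2) n 0) = true) (kB : okDig b rs' (mkL (col4 b w Y1 Y2) n 0) = true)
    (hG : G = 2 * cc) (hg : ∀ v, v 0 = 1 → g v = dt w (U v) (X v) + dt w (V v) (Y v)) :
    LB n (G * (2 ^ s * 2 ^ s)) g
      (fun v => Blk.val b n v (.bl false cc rs.length (mkL (col4 b w Z1 Z2) n 0) (mkL (col4 b w Y1 Y2) n 0)))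
      ((eW n (2 * cc) e e' rs rs' : ℕ) : ℝ) := by
  have hA : ∀ i < n, (mkL (col4 b w Z1 Z2) n 0).getD i 0 = col4 b w Z1 Z2 i := fun i hi => by
    rw [mkL_getD _ n 0 i hi, zero_add]
  have hB : ∀ i < n, (mkL (col4 b w Y1 Y2) n 0).getD i 0 = col4 b w Y1 Y2 i := fun i hi => by
    rw [mkL_getD _ n 0 i hi, zero_add]
  have k := LB.blD (N := n) (b := b) (s := s) (s' := s) (e := e) (e' := e') (c := cc) (t := false) (G := G)
    (w := fun _ => 1) (X := fn4 w U V) (Y := fn4 w X Y) (hl.trans hl'.symm) (mkL_length _ n 0) (mkL_length _ n 0)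
    kA kB (fun c hc => col4_LR h1 h2 hA (hl ▸ hc)) (fun c hc => col4_LR h3 h4 hB (hl ▸ hc))
    (fun c _ => by
      unfold Helper25.SH.Mat.sgr
      rw [cond_false, one_mul, mul_one, hG])
  refine LB.congr k (fun v hv => ?_) (fun v _ => rfl)
  rw [hg v hv, ← fn4_sum, hl]
  exact Finset.sum_congr rfl fun c _ => (one_mul _).symm

end block

/-! ### the instance -/

section inst

variable {c : CD} {b s R N K L K' M D eT cc : ℕ} {e1 e2 : ℤ} {d k ph : ℝ} {TA TB : ℕ → FP} {rs rs' : List ℕ} {G : ℝ}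

/-- packed column of `G1A`, `G2A` -/
def cG (b s R K' K L D : ℕ) (e1 e2 : ℤ) : ℕ → ℕ :=
  col4 b (Nat.add K' 2) (rowG true b s R (Nat.add K' 2) K L D e1 e2) (rowG false b s R (Nat.add K' 2) K L D e1 e2)
/-- packed column of the windows of `gA`, `gB` -/
def cN (b s R N K' K L D : ℕ) (e1 e2 : ℤ) (TA TB : ℕ → FP) : ℕ → ℕ :=
  col4 b (Nat.add K' 2) (fun i => winF b (Nat.add K' 2) (rowN false b s R N (Nat.add K' 3) K L D e1 e2 TA i))
    (fun i => winF b (Nat.add K' 2) (rowN true b s R N (Nat.add K' 3) K L D e1 e2 TB i))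

/-- **THE BLOCK NF** -/
theorem NF_LB (hK : ¬ Even K) (hL : Even L) (hK' : K ≤ K') (hL' : L ≤ K') (hM : K' ≤ M) (hN : K' + 2 ≤ N) (hD : 0 < D)
    (hη : c.P.eta = ((e1 : ℂ) + e2 * Complex.I) / D) (hps : c.P.ps = ps d k ph)
    (hTA : TabH b s N (K' + 3) eT TA (kaA d k ph)) (hTB : TabH b s N (K' + 3) eT TB (kaB d k ph))
    (hR : okR3 s R = true)
    (he : e1.natAbs + e2.natAbs ≤ D)
    (hl : rs.length = 4 * len (K' + 2)) (hl' : rs'.length = 4 * len (K' + 2))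
    (kA : okDig b rs (mkL (cG b s R K' K L D e1 e2) (nt K L) 0) = true)
    (kB : okDig b rs' (mkL (cN b s R N K' K L D e1 e2 TA TB) (nt K L) 0) = true) (hG : G = 2 * cc) :
    LB (nt K L) (G * (2 ^ s * 2 ^ s))
      (fun v => NF c.P.ps (M + 3) (C1 c.P (pV K L v) (rV K L v) (sV K v)) (C2 c.P (pV K L v) (rV K L v) (sV K v)))
      (fun v => Blk.val b (nt K L) v (.bl false cc rs.length (mkL (cG b s R K' K L D e1 e2) (nt K L) 0)
        (mkL (cN b s R N K' K L D e1 e2 TA TB) (nt K L) 0)))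
      ((eW (nt K L) (2 * cc) 18 (24 * eT + 62) rs rs' : ℕ) : ℝ) := by
  have hb := hTA.hb
  have hs := hTA.hs
  have c1 := (G1_CR (c := c) hK hL hK' hL' (le_refl (K' + 2)) hD he hη hb hs hR).1
  have c2 := (G2_CR (c := c) hK hL hK' hL' (le_refl (K' + 2)) hD he hη hb hs hR).1
  have c3 := (gA_CR (c := c) hK hL hK' hL' hM rfl hN hD he hη hps hTA hR).1.window hN
  have c4 := (gB_CR (c := c) hK hL hK' hL' hM rfl hN hD he hη hps hTB hR).1.window hN
  exact LB_dt c1 c2 c3 c4 hl hl' kA kB hG fun v _ => NF_edge hM (G1A_V c.P hK' hL' v) (G2A_V c.P hK' hL' v)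

end inst

end Pool.Agent.Helper77.NS
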