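import Pool.Agent.Helper77.NS.NFb
import Pool.Agent.Helper42.SH.HFend
import Pool.Agent.Helper25.SH.Wid

/-!
# Project RC, SHARP, cell engine: the field `nf` of helper42's `Pieces`

`LBB_NF`: the block of the shift form, re-based to the base `bM` of the matrix.
-/

set_option autoImplicit false

namespace Pool.Agent.Helper77.NS

open Helper95.RC
open Helper95.SH
open Helper85.NS
open Helper43.CL (LB LB.congr okDig eW)
open Helper54.RC.Fast (FP len len_eq)
open Pool.Agent.Helper99.RC (ps)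
open Helper25.SH.Mat (Blk row wid val_wid_bl)
open Helper42.SH (LBB LBB.one gNF)

section

variable {c : CD} {b s R N K H K' D eT cc bM mm : ℕ} {e1 e2 : ℤ} {d k ph : ℝ} {TA TB : ℕ → FP} {rs rs' : List ℕ}
  {S : ℝ}

/-- the block at the base `bM` -/
def bNF (b s R N K' K L D : ℕ) (e1 e2 : ℤ) (TA TB : ℕ → FP) (bM mm cc : ℕ) : Blk :=
  .bl false cc (Nat.mul 4 (len (Nat.add K' 2)))
    (wid b bM mm (Nat.mul 4 (len (Nat.add K' 2))) (mkL (cG b s R K' K L D e1 e2) (nt K L) 0))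
    (wid b bM mm (Nat.mul 4 (len (Nat.add K' 2))) (mkL (cN b s R N K' K L D e1 e2 TA TB) (nt K L) 0))

/-- **the field `nf`** -/
theorem LBB_NF (hK : ¬ Even K) (hK' : max K (2 * H) = K') (hN : K' + 2 ≤ N) (hD : 0 < D)
    (hη : c.P.eta = ((e1 : ℂ) + e2 * Complex.I) / D) (hps : c.P.ps = ps d k ph)
    (hTA : TabH b s N (K' + 3) eT TA (kaA d k ph)) (hTB : TabH b s N (K' + 3) eT TB (kaB d k ph))
    (hR : okR3 s R = true)
    (he : e1.natAbs + e2.natAbs ≤ D)
    (hl : rs.length = 4 * len (K' + 2)) (hl' : rs'.length = 4 * len (K' + 2))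
    (kA : okDig b rs (mkL (cG b s R K' K (2 * H) D e1 e2) (nt K (2 * H)) 0) = true)
    (kB : okDig b rs' (mkL (cN b s R N K' K (2 * H) D e1 e2 TA TB) (nt K (2 * H)) 0) = true)
    (hb : b ≤ bM) (hm : 4 * len (K' + 2) ≤ 2 ^ mm) (hS : S = 2 * cc * (2 ^ s * 2 ^ s)) :
    LBB bM (nt K (2 * H)) S (fun v => gNF c K H (max K (2 * H)) v) [bNF b s R N K' K (2 * H) D e1 e2 TA TB bM mm cc]
      ((eW (nt K (2 * H)) (2 * cc) 18 (24 * eT + 62) rs rs' : ℕ) : ℝ) := by
  subst hK'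
  have k1 := NF_LB (c := c) (M := max K (2 * H)) (K' := max K (2 * H)) (cc := cc) (G := 2 * (cc : ℝ)) hK
    (even_two_mul H) (le_max_left _ _) (le_max_right _ _) le_rfl hN hD hη hps hTA hTB hR he hl hl' kA kB rfl
  rw [hS]
  refine LBB.one (LB.congr k1 (fun v _ => rfl) fun v _ => ?_)
  rw [hl]
  exact val_wid_bl hb hm (by rw [mkL_length]) (by rw [mkL_length]) false cc v

end

end Pool.Agent.Helper77.NS
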