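import Pool.Agent.Helper77.NS.NFf
import Pool.Agent.Helper96.SH.Fl
import Pool.Agent.Helper49.SH.CellE
import Pool.Agent.Helper70.SH.Asm

/-!
# Project RC, SHARP, cell engine: the block of the shift form for the data of a record, two scales

The rows `gA`, `gB` come at the scale `2 ^ (s + t)`; their windows are rounded to `2 ^ s`.
`LBB_NFs`: the field `nf` of helper42's `Pieces` for `cd R h len s0`; the digits of the packed columns are at most `2 ^ r`, `2 ^ r'`.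
-/

set_option autoImplicit false

namespace Pool.Agent.Helper77.NS

open Helper95.RC
open Helper95.SH
open Helper85.NS
open Helper43.CL (LB LB.congr okDig eW)
open Helper54.RC.Fast (FP len len_eq winF flF on)
open Helper96.SH (dz flC dz_flC)
open Helper25.SH.Mat (Blk row wid val_wid_bl)
open Helper42.SH (LBB LBB.one gNF)
open Helper49.Cell
open Pool.Agent.Helper99.RC (ps)

/-- floor of two real numbers -/
theorem fl2 (t : ℕ) (x y : ℤ) : ‖((x : ℂ) + Complex.I * (y : ℂ)) -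
    2 ^ t * (((x / 2 ^ t : ℤ) : ℂ) + Complex.I * ((y / 2 ^ t : ℤ) : ℂ))‖ ≤ 2 * 2 ^ t := by
  have hd : ∀ x : ℤ, |(x : ℝ) - 2 ^ t * ((x / 2 ^ t : ℤ) : ℝ)| ≤ 2 ^ t := by
    intro x
    have h1 := Int.emod_add_mul_ediv x (2 ^ t)
    have h2 := Int.emod_nonneg x (show (2 ^ t : ℤ) ≠ 0 by positivity)
    have h3 := Int.emod_lt_of_pos x (show (0 : ℤ) < 2 ^ t by positivity)
    have h4 : (x : ℝ) - 2 ^ t * ((x / 2 ^ t : ℤ) : ℝ) = ((x % 2 ^ t : ℤ) : ℝ) := by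
      have : ((x % 2 ^ t + 2 ^ t * (x / 2 ^ t) : ℤ) : ℝ) = (x : ℝ) := by rw [h1]
      push_cast at this ⊢
      linarith
    rw [h4, abs_of_nonneg (by exact_mod_cast h2)]
    have : ((x % 2 ^ t : ℤ) : ℝ) ≤ ((2 ^ t : ℤ) : ℝ) := by exact_mod_cast h3.le
    push_cast at this ⊢
    exact this
  have e : ((x : ℂ) + Complex.I * (y : ℂ)) - 2 ^ t * (((x / 2 ^ t : ℤ) : ℂ) + Complex.I * ((y / 2 ^ t : ℤ) : ℂ)) =
      (((x : ℝ) - 2 ^ t * ((x / 2 ^ t : ℤ) : ℝ) : ℝ) : ℂ) +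
        Complex.I * (((y : ℝ) - 2 ^ t * ((y / 2 ^ t : ℤ) : ℝ) : ℝ) : ℂ) := by
    push_cast
    ring
  rw [e]
  refine (norm_add_le _ _).trans ?_
  rw [norm_mul, Complex.norm_I, one_mul, Complex.norm_real, Complex.norm_real, Real.norm_eq_abs, Real.norm_eq_abs]
  have := hd x
  have := hd y
  linarith

/-- **rounded rows** -/
theorem CR_fl {b s t n N e : ℕ} {X : (ℕ → ℝ) → ℤ → ℂ} {Z : ℕ → FP} (h : CR b (s + t) n N X Z e) (ht : t ≤ b) :
    CR b s n N X (fun i => flF b t (Z i)) (Nat.add (Nat.div e (Nat.pow 2 t)) 3) := by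
  obtain ⟨ξ, h1, h2⟩ := h
  refine ⟨ξ, h1, fun i hi => ?_⟩
  obtain ⟨a1, ⟨a2, a2'⟩, a3⟩ := h2 i hi
  have hl : len N = 2 * N + 1 := len_eq N
  have ex : (flF b t (Z i)).x = flC b t (2 * N) (Z i).x := by
    show Helper54.RC.Fast.fl b t (on b (len (Z i).N)) (Z i).x = Helper54.RC.Fast.fl b t (on b (Nat.succ (2 * N))) (Z i).x
    rw [a1, hl]
  have ey : (flF b t (Z i)).y = flC b t (2 * N) (Z i).y := by
    show Helper54.RC.Fast.fl b t (on b (len (Z i).N)) (Z i).y = Helper54.RC.Fast.fl b t (on b (Nat.succ (2 * N))) (Z i).y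
    rw [a1, hl]
  rw [hl] at a2 a2'
  refine ⟨a1, ?_, fun j hj => ?_⟩
  · have w := (Helper54.RC.Fast.wf_iff b (flF b t (Z i))).1 (Helper54.RC.Fast.flF_sound b t ht (Z i)).1
    have e0 : (flF b t (Z i)).N = N := a1
    rw [e0] at w
    exact w
  · have hj' : j ≤ 2 * N := by omega
    have k1 := a3 j hj
    show ‖((dz b j (flF b t (Z i)).x : ℂ) + Complex.I * (dz b j (flF b t (Z i)).y : ℂ)) - 2 ^ s * ξ i ((j : ℤ) - N)‖ ≤ _
    rw [ex, ey, dz_flC a2 ht hj', dz_flC a2' ht hj']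
    have k2 := fl2 t (dz b j (Z i).x) (dz b j (Z i).y)
    have hS : (0 : ℝ) < 2 ^ t := by positivity
    set p : ℂ := ((dz b j (Z i).x / 2 ^ t : ℤ) : ℂ) + Complex.I * ((dz b j (Z i).y / 2 ^ t : ℤ) : ℂ) with hp
    set q : ℂ := (dz b j (Z i).x : ℂ) + Complex.I * (dz b j (Z i).y : ℂ) with hq
    have e1 : (2 : ℂ) ^ t * (p - 2 ^ s * ξ i ((j : ℤ) - N)) = (q - 2 ^ (s + t) * ξ i ((j : ℤ) - N)) - (q - 2 ^ t * p) := by
      rw [pow_add]
      ring
    have e2 : ‖(2 : ℂ) ^ t * (p - 2 ^ s * ξ i ((j : ℤ) - N))‖ = 2 ^ t * ‖p - 2 ^ s * ξ i ((j : ℤ) - N)‖ := by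
      rw [norm_mul, norm_pow, Complex.norm_ofNat]
    have k3 : 2 ^ t * ‖p - 2 ^ s * ξ i ((j : ℤ) - N)‖ ≤ e + 2 * 2 ^ t := by
      rw [← e2, e1]
      exact (norm_sub_le _ _).trans (add_le_add k1 k2)
    have h4 : (e : ℝ) ≤ 2 ^ t * (((e / 2 ^ t : ℕ) : ℝ) + 1) := by
      have h3 : e < 2 ^ t * (e / 2 ^ t + 1) := Nat.lt_mul_div_succ _ (by positivity)
      exact_mod_cast h3.le
    have e3 : ((Nat.add (Nat.div e (Nat.pow 2 t)) 3 : ℕ) : ℝ) = ((e / 2 ^ t : ℕ) : ℝ) + 3 := by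
      show ((e / 2 ^ t + 3 : ℕ) : ℝ) = _
      push_cast; rfl
    rw [e3, ← mul_le_mul_iff_right₀ hS]
    nlinarith

section

variable {c : CD} {b s t R R' N K L K' M D eT cc : ℕ} {e1 e2 : ℤ} {d k ph : ℝ} {TA TB : ℕ → FP} {rs rs' : List ℕ} {G : ℝ}

/-- packed column of the rounded windows of `gA`, `gB` -/
def cS (b s t R N K' K L D : ℕ) (e1 e2 : ℤ) (TA TB : ℕ → FP) : ℕ → ℕ :=
  col4 b (Nat.add K' 2)
    (fun i => flF b t (winF b (Nat.add K' 2) (rowN false b (Nat.add s t) R N (Nat.add K' 3) K L D e1 e2 TA i)))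
    (fun i => flF b t (winF b (Nat.add K' 2) (rowN true b (Nat.add s t) R N (Nat.add K' 3) K L D e1 e2 TB i)))

/-- **the block, two scales** -/
theorem NF_LBs (hK : ¬ Even K) (hL : Even L) (hK' : K ≤ K') (hL' : L ≤ K') (hM : K' ≤ M) (hN : K' + 2 ≤ N) (hD : 0 < D)
    (hη : c.P.eta = ((e1 : ℂ) + e2 * Complex.I) / D) (hps : c.P.ps = ps d k ph)
    (hTA : TabH b (s + t) N (K' + 3) eT TA (kaA d k ph)) (hTB : TabH b (s + t) N (K' + 3) eT TB (kaB d k ph))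
    (hs : 2 ≤ s) (hR : okR3 (s + t) R = true) (hR' : okR3 s R' = true)
    (he : e1.natAbs + e2.natAbs ≤ D)
    (hl : rs.length = 4 * len (K' + 2)) (hl' : rs'.length = 4 * len (K' + 2))
    (kA : okDig b rs (mkL (cG b s R' K' K L D e1 e2) (nt K L) 0) = true)
    (kB : okDig b rs' (mkL (cS b s t R N K' K L D e1 e2 TA TB) (nt K L) 0) = true) (hG : G = 2 * cc) :
    LB (nt K L) (G * (2 ^ s * 2 ^ s))
      (fun v => NF c.P.ps (M + 3) (C1 c.P (pV K L v) (rV K L v) (sV K v)) (C2 c.P (pV K L v) (rV K L v) (sV K v)))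
      (fun v => Blk.val b (nt K L) v (.bl false cc rs.length (mkL (cG b s R' K' K L D e1 e2) (nt K L) 0)
        (mkL (cS b s t R N K' K L D e1 e2 TA TB) (nt K L) 0)))
      ((eW (nt K L) (2 * cc) 18 (Nat.add (Nat.div (24 * eT + 62) (Nat.pow 2 t)) 3) rs rs' : ℕ) : ℝ) := by
  have hb : 2 * (s + t) + 7 ≤ b := hTA.hb
  have c1 := (G1_CR (c := c) hK hL hK' hL' (le_refl (K' + 2)) hD he hη (show 2 * s + 7 ≤ b by omega) hs hR').1
  have c2 := (G2_CR (c := c) hK hL hK' hL' (le_refl (K' + 2)) hD he hη (show 2 * s + 7 ≤ b by omega) hs hR').1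
  have c3 := CR_fl ((gA_CR (c := c) hK hL hK' hL' hM rfl hN hD he hη hps hTA hR).1.window hN) (show t ≤ b by omega)
  have c4 := CR_fl ((gB_CR (c := c) hK hL hK' hL' hM rfl hN hD he hη hps hTB hR).1.window hN) (show t ≤ b by omega)
  exact LB_dt c1 c2 c3 c4 hl hl' kA kB hG fun v _ => NF_edge hM (G1A_V c.P hK' hL' v) (G2A_V c.P hK' hL' v)

end

/-! ### records -/

/-- uniform bounds of the digits -/
def rsU (K' r : ℕ) : List ℕ := List.replicate (Nat.mul 4 (len (Nat.add K' 2))) r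
/-- the packed columns of `G1A`, `G2A`, scale `2 ^ s` -/
def nfA (R : Rec) (b s R3 K' K L : ℕ) : List ℕ := mkL (cG b s R3 K' K L 100000 R.e1 R.e2) (nt K L) 0
/-- the packed columns of `gA`, `gB`, scale `2 ^ s`, from the tables of the scale `2 ^ (s + t)` -/
def nfB (R : Rec) (b s t R3 N K' K L : ℕ) (TA TB : ℕ → FP) : List ℕ :=
  mkL (cS b s t R3 N K' K L 100000 R.e1 R.e2 TA TB) (nt K L) 0
/-- the block at the base `bM` -/
def nfK (R : Rec) (b s t R3 R3' N K' K L : ℕ) (TA TB : ℕ → FP) (bM mm cc : ℕ) : Blk :=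
  .bl false cc (Nat.mul 4 (len (Nat.add K' 2)))
    (wid b bM mm (Nat.mul 4 (len (Nat.add K' 2))) (nfA R b s R3' K' K L))
    (wid b bM mm (Nat.mul 4 (len (Nat.add K' 2))) (nfB R b s t R3 N K' K L TA TB))
/-- the error -/
def nfE (K' K L cc t eT r r' : ℕ) : ℕ :=
  eW (nt K L) (Nat.mul 2 cc) 18 (Nat.add (Nat.div (Nat.add (Nat.mul 24 eT) 62) (Nat.pow 2 t)) 3) (rsU K' r) (rsU K' r')

/-- **the field `nf` for a record** -/
theorem LBB_NFs {R : Rec} {C : Crt} (h : R.ok C = true) {K0 : ℕ} (le : Helper70.SH.Len R K0) (s0 : ℕ)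
    {b s t R3 R3' N K H K' eT cc bM mm r r' : ℕ} {TA TB : ℕ → FP} {S : ℝ}
    (hK : ¬ Even K) (hK' : max K (2 * H) = K') (hN : K' + 2 ≤ N)
    (hTA : TabH b (s + t) N (K' + 3) eT TA (kaA ((R.d : ℝ) / 100000) ((R.k : ℝ) / 100000) R.cb.ph))
    (hTB : TabH b (s + t) N (K' + 3) eT TB (kaB ((R.d : ℝ) / 100000) ((R.k : ℝ) / 100000) R.cb.ph))
    (hs : 2 ≤ s) (hR : okR3 (s + t) R3 = true) (hR' : okR3 s R3' = true) (he : R.e1.natAbs + R.e2.natAbs ≤ 100000)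
    (kA : okDig b (rsU K' r) (nfA R b s R3' K' K (2 * H)) = true)
    (kB : okDig b (rsU K' r') (nfB R b s t R3 N K' K (2 * H) TA TB) = true)
    (hb : b ≤ bM) (hm : 4 * len (K' + 2) ≤ 2 ^ mm) (hS : S = 2 * cc * (2 ^ s * 2 ^ s)) :
    LBB bM (nt K (2 * H)) S (fun v => gNF (Helper70.SH.cd R h le s0) K H (max K (2 * H)) v)
      [nfK R b s t R3 R3' N K' K (2 * H) TA TB bM mm cc] ((nfE K' K (2 * H) cc t eT r r' : ℕ) : ℝ) := by
  subst hK'
  have e : ∀ x : ℕ, (rsU (max K (2 * H)) x).length = 4 * len (max K (2 * H) + 2) := fun x => List.length_replicate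
  have k1 := NF_LBs (c := Helper70.SH.cd R h le s0) (M := max K (2 * H)) (K' := max K (2 * H)) (cc := cc)
    (G := 2 * (cc : ℝ)) (e1 := R.e1) (e2 := R.e2) (D := 100000) hK
    (even_two_mul H) (le_max_left _ _) (le_max_right _ _) le_rfl hN (by norm_num) (by
    rw [Helper70.SH.cd_P, Helper70.SH.par_eta]
    push_cast
    ring) rfl hTA hTB hs hR hR' he (e r) (e r') kA kB rfl
  rw [hS]
  refine LBB.one (LB.congr k1 (fun v _ => rfl) fun v _ => ?_)
  rw [e r]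
  exact val_wid_bl hb hm (by unfold nfA; rw [mkL_length]) (by unfold nfB; rw [mkL_length]) false cc v

end Pool.Agent.Helper77.NS
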