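import Pool.Agent.Helper77.NS.NFf
import Pool.Agent.Helper87.SH.ColRec
import Pool.Agent.Helper31.SH.TabF
import Pool.Agent.Helper49.SH.CellE

/-!
# Project RC, SHARP, cell engine: tables, rows and the block of the shift form for the data of a record

* `zA_R`, `zB_R`: the packed rows `nzA`, `nzB` of `gA`, `gB` (base `q.b`, scale `2 ^ q.s'`), used by the block and by the collars;
* `LBB_NFz`: the field `nf` of helper42's `Pieces` from these rows, rounded to the scale `2 ^ s`. No check of digits: the bounds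
  `2 ^ (s + 7)` are known.
-/

set_option autoImplicit false

namespace Pool.Agent.Helper77.NS

open Helper49.LT hiding sg
open Helper95.RC hiding LB
open Helper95.SH hiding Blk
open Helper85.NS
open Helper43.CL (LB LB.bl LB.congr eP)
open Helper54.RC.Fast (FP len len_eq winF flF on)
open Helper96.SH (dz flC dz_flC)
open Helper25.SH.Mat (row wid val_wid_bl)
open Helper42.SH (LBB LBB.one gNF)
open Helper49.Cell
open Pool.Agent.Helper99.RC (ps)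
open Pool.Agent.Helper31.KcF (KQ KD)
open Pool.Agent.Helper31.TabF (tH ngK okH TabH_A TabH_B)
open Helper70.SH (cd)

/-! ### rounding of rows -/

/-- floor of two real numbers -/
theorem fz2 (t : ℕ) (x y : ℤ) : ‖((x : ℂ) + Complex.I * (y : ℂ)) -
    2 ^ t * (((x / 2 ^ t : ℤ) : ℂ) + Complex.I * ((y / 2 ^ t : ℤ) : ℂ))‖ ≤ 2 * 2 ^ t := by
  have hd : ∀ x : ℤ, |(x : ℝ) - 2 ^ t * ((x / 2 ^ t : ℤ) : ℝ)| ≤ 2 ^ t := by
    intro x
    have h1 := Int.emod_add_mul_ediv x (2 ^ t)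
    have h2 := Int.emod_nonneg x (show (2 ^ t : ℤ) ≠ 0 by positivity)
    have h3 := Int.emod_lt_of_pos x (show (0 : ℤ) < 2 ^ t by positivity)
    have h4 : (x : ℝ) - 2 ^ t * ((x / 2 ^ t : ℤ) : ℝ) = ((x % 2 ^ t : ℤ) : ℝ) := by
      have : ((x % 2 ^ t + 2 ^ t * (x / 2 ^ t) : ℤ) : ℝ) = (x : ℝ) := by rw [h1]
      push_cast at this ⊢
      linarith
    rw [h4, abs_of_nonneg (by exact_mod_cast h2)]
    have : ((x % 2 ^ t : ℤ) : ℝ) ≤ ((2 ^ t : ℤ) : ℝ) := by exact_mod_cast h3.le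
    push_cast at this ⊢
    exact this
  have e : ((x : ℂ) + Complex.I * (y : ℂ)) - 2 ^ t * (((x / 2 ^ t : ℤ) : ℂ) + Complex.I * ((y / 2 ^ t : ℤ) : ℂ)) =
      (((x : ℝ) - 2 ^ t * ((x / 2 ^ t : ℤ) : ℝ) : ℝ) : ℂ) +
        Complex.I * (((y : ℝ) - 2 ^ t * ((y / 2 ^ t : ℤ) : ℝ) : ℝ) : ℂ) := by
    push_cast
    ring
  rw [e]
  refine (norm_add_le _ _).trans ?_
  rw [norm_mul, Complex.norm_I, one_mul, Complex.norm_real, Complex.norm_real, Real.norm_eq_abs, Real.norm_eq_abs]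
  have := hd x
  have := hd y
  linarith

/-- **rounded rows** -/
theorem CR_flz {b s t n N e : ℕ} {X : (ℕ → ℝ) → ℤ → ℂ} {Z : ℕ → FP} (h : CR b (s + t) n N X Z e) (ht : t ≤ b) :
    CR b s n N X (fun i => flF b t (Z i)) (Nat.add (Nat.div e (Nat.pow 2 t)) 3) := by
  obtain ⟨ξ, h1, h2⟩ := h
  refine ⟨ξ, h1, fun i hi => ?_⟩
  obtain ⟨a1, ⟨a2, a2'⟩, a3⟩ := h2 i hi
  have hl : len N = 2 * N + 1 := len_eq N
  have ex : (flF b t (Z i)).x = flC b t (2 * N) (Z i).x := by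
    show Helper54.RC.Fast.fl b t (on b (len (Z i).N)) (Z i).x = Helper54.RC.Fast.fl b t (on b (Nat.succ (2 * N))) (Z i).x
    rw [a1, hl]
  have ey : (flF b t (Z i)).y = flC b t (2 * N) (Z i).y := by
    show Helper54.RC.Fast.fl b t (on b (len (Z i).N)) (Z i).y = Helper54.RC.Fast.fl b t (on b (Nat.succ (2 * N))) (Z i).y
    rw [a1, hl]
  rw [hl] at a2 a2'
  refine ⟨a1, ?_, fun j hj => ?_⟩
  · have w := (Helper54.RC.Fast.wf_iff b (flF b t (Z i))).1 (Helper54.RC.Fast.flF_sound b t ht (Z i)).1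
    have e0 : (flF b t (Z i)).N = N := a1
    rw [e0] at w
    exact w
  · have hj' : j ≤ 2 * N := by omega
    have k1 := a3 j hj
    show ‖((dz b j (flF b t (Z i)).x : ℂ) + Complex.I * (dz b j (flF b t (Z i)).y : ℂ)) - 2 ^ s * ξ i ((j : ℤ) - N)‖ ≤ _
    rw [ex, ey, dz_flC a2 ht hj', dz_flC a2' ht hj']
    have k2 := fz2 t (dz b j (Z i).x) (dz b j (Z i).y)
    have hS : (0 : ℝ) < 2 ^ t := by positivity
    set p : ℂ := ((dz b j (Z i).x / 2 ^ t : ℤ) : ℂ) + Complex.I * ((dz b j (Z i).y / 2 ^ t : ℤ) : ℂ) with hp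
    set q : ℂ := (dz b j (Z i).x : ℂ) + Complex.I * (dz b j (Z i).y : ℂ) with hq
    have e1 : (2 : ℂ) ^ t * (p - 2 ^ s * ξ i ((j : ℤ) - N)) = (q - 2 ^ (s + t) * ξ i ((j : ℤ) - N)) - (q - 2 ^ t * p) := by
      rw [pow_add]
      ring
    have e2 : ‖(2 : ℂ) ^ t * (p - 2 ^ s * ξ i ((j : ℤ) - N))‖ = 2 ^ t * ‖p - 2 ^ s * ξ i ((j : ℤ) - N)‖ := by
      rw [norm_mul, norm_pow, Complex.norm_ofNat]
    have k3 : 2 ^ t * ‖p - 2 ^ s * ξ i ((j : ℤ) - N)‖ ≤ e + 2 * 2 ^ t := by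
      rw [← e2, e1]
      exact (norm_sub_le _ _).trans (add_le_add k1 k2)
    have h4 : (e : ℝ) ≤ 2 ^ t * (((e / 2 ^ t : ℕ) : ℝ) + 1) := by
      have h3 : e < 2 ^ t * (e / 2 ^ t + 1) := Nat.lt_mul_div_succ _ (by positivity)
      exact_mod_cast h3.le
    have e3 : ((Nat.add (Nat.div e (Nat.pow 2 t)) 3 : ℕ) : ℝ) = ((e / 2 ^ t : ℕ) : ℝ) + 3 := by
      show ((e / 2 ^ t + 3 : ℕ) : ℝ) = _
      push_cast; rfl
    rw [e3, ← mul_le_mul_iff_right₀ hS]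
    nlinarith

theorem div_bd {t m : ℕ} {x : ℤ} (h : |x| ≤ 2 ^ (m + t)) : |x / 2 ^ t| ≤ 2 ^ m := by
  have hS : (0 : ℤ) < 2 ^ t := by positivity
  rw [pow_add] at h
  rw [abs_le] at h ⊢
  refine ⟨?_, ?_⟩
  · rw [Int.le_ediv_iff_mul_le hS]
    linarith [h.1]
  · have h1 := Int.ediv_le_ediv hS h.2
    rwa [Int.mul_ediv_cancel _ hS.ne'] at h1

/-- bounds of rounded rows -/
theorem DB_flz {b s t n N e m : ℕ} {X : (ℕ → ℝ) → ℤ → ℂ} {Z : ℕ → FP} (h : CR b s n N X Z e) (ht : t ≤ b)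
    (hB : DB b n N (2 ^ (m + t)) Z) : DB b n N (2 ^ m) (fun i => flF b t (Z i)) := by
  obtain ⟨ξ, h1, h2⟩ := h
  intro i hi j hj
  obtain ⟨a1, ⟨a2, a2'⟩, a3⟩ := h2 i hi
  have hl : len N = 2 * N + 1 := len_eq N
  have ex : (flF b t (Z i)).x = flC b t (2 * N) (Z i).x := by
    show Helper54.RC.Fast.fl b t (on b (len (Z i).N)) (Z i).x = Helper54.RC.Fast.fl b t (on b (Nat.succ (2 * N))) (Z i).x
    rw [a1, hl]
  have ey : (flF b t (Z i)).y = flC b t (2 * N) (Z i).y := by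
    show Helper54.RC.Fast.fl b t (on b (len (Z i).N)) (Z i).y = Helper54.RC.Fast.fl b t (on b (Nat.succ (2 * N))) (Z i).y
    rw [a1, hl]
  rw [hl] at a2 a2'
  have hj' : j ≤ 2 * N := by omega
  obtain ⟨b1, b2⟩ := hB i hi j hj
  show |dz b j (flF b t (Z i)).x| ≤ 2 ^ m ∧ |dz b j (flF b t (Z i)).y| ≤ 2 ^ m
  rw [ex, ey, dz_flC a2 ht hj', dz_flC a2' ht hj']
  exact ⟨div_bd b1, div_bd b2⟩

/-! ### packed columns: bounds of the digits -/

theorem col4_DB {b s s' n w e e' : ℕ} {B : ℤ} {U V : (ℕ → ℝ) → ℤ → ℂ} {Z1 Z2 : ℕ → FP} (h1 : CR b s n w U Z1 e)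
    (h2 : CR b s' n w V Z2 e') (d1 : DB b n w B Z1) (d2 : DB b n w B Z2) {A : List ℕ}
    (hA : ∀ i < n, A.getD i 0 = col4 b w Z1 Z2 i) {c : ℕ}
    (hc : c < 4 * len w) {i : ℕ} (hi : i < n) : |row b A c i| ≤ B := by
  have b1 : (Z1 i).x < (2 ^ (b + 1)) ^ (len w) ∧ (Z1 i).y < (2 ^ (b + 1)) ^ (len w) := by
    obtain ⟨ξ, -, k⟩ := h1; exact (k i hi).2.1
  have b2 : (Z2 i).x < (2 ^ (b + 1)) ^ (len w) ∧ (Z2 i).y < (2 ^ (b + 1)) ^ (len w) := by
    obtain ⟨ξ, -, k⟩ := h2; exact (k i hi).2.1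
  have hr : row b A c i = dz b c (col4 b w Z1 Z2 i) := by
    unfold row
    rw [dg_eq, hA i hi]
  rw [hr]
  by_cases q0 : c < len w
  · have e : dz b c (col4 b w Z1 Z2 i) = dz b c (Z1 i).x := cat4_0 q0
    rw [e]
    exact (d1 i hi c q0).1
  by_cases q1 : c < 2 * len w
  · obtain ⟨j, rfl⟩ : ∃ j, c = len w + j := ⟨c - len w, by omega⟩
    have hj : j < len w := by omega
    have e : dz b (len w + j) (col4 b w Z1 Z2 i) = dz b j (Z1 i).y := cat4_1 b1.1 hj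
    rw [e]
    exact (d1 i hi j hj).2
  by_cases q2 : c < 3 * len w
  · obtain ⟨j, rfl⟩ : ∃ j, c = 2 * len w + j := ⟨c - 2 * len w, by omega⟩
    have hj : j < len w := by omega
    have e : dz b (2 * len w + j) (col4 b w Z1 Z2 i) = dz b j (Z2 i).x := cat4_2 b1.1 b1.2 hj
    rw [e]
    exact (d2 i hi j hj).1
  · obtain ⟨j, rfl⟩ : ∃ j, c = 3 * len w + j := ⟨c - 3 * len w, by omega⟩
    have hj : j < len w := by omega
    have e : dz b (3 * len w + j) (col4 b w Z1 Z2 i) = dz b j (Z2 i).y := cat4_3 b1.1 b1.2 b2.1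
    rw [e]
    exact (d2 i hi j hj).2

/-! ### the block -/

/-- the error: `n` coordinates, `m` digits, rows with errors `e`, `e'` and digits at most `2 ^ r`, `2 ^ r'` -/
def eZ (n m c r r' e e' : ℕ) : ℕ :=
  Nat.mul c (Nat.mul n (Nat.mul m (Nat.add (Nat.add (Nat.mul (Nat.pow 2 r) e') (Nat.mul (Nat.pow 2 r') e)) (Nat.mul e e'))))

section block

variable {b s n w e e' r r' cc : ℕ} {U V X Y : (ℕ → ℝ) → ℤ → ℂ} {Z1 Z2 Y1 Y2 : ℕ → FP} {A B : List ℕ}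
  {g : (ℕ → ℝ) → ℝ} {G : ℝ}

/-- **two scalar products of arrays as one block, a priori bounds of the digits** -/
theorem LB_dtz (h1 : CR b s n w U Z1 e) (h2 : CR b s n w V Z2 e) (h3 : CR b s n w X Y1 e') (h4 : CR b s n w Y Y2 e')
    (d1 : DB b n w (2 ^ r) Z1) (d2 : DB b n w (2 ^ r) Z2) (d3 : DB b n w (2 ^ r') Y1) (d4 : DB b n w (2 ^ r') Y2)
    (hA : A = mkL (col4 b w Z1 Z2) n 0) (hB : B = mkL (col4 b w Y1 Y2) n 0)
    (hG : G = 2 * cc) (hg : ∀ v, v 0 = 1 → g v = dt w (U v) (X v) + dt w (V v) (Y v)) :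
    LB n (G * (2 ^ s * 2 ^ s)) g (fun v => Helper25.SH.Mat.Blk.val b n v (.bl false cc (4 * len w) A B))
      ((eZ n (4 * len w) (2 * cc) r r' e e' : ℕ) : ℝ) := by
  have hA' : ∀ i < n, A.getD i 0 = col4 b w Z1 Z2 i := fun i hi => by
    rw [hA, mkL_getD _ n 0 i hi, zero_add]
  have hB' : ∀ i < n, B.getD i 0 = col4 b w Y1 Y2 i := fun i hi => by
    rw [hB, mkL_getD _ n 0 i hi, zero_add]
  have k := LB.bl (N := n) (b := b) (m := 4 * len w) (q1 := 2 ^ s) (q2 := 2 ^ s) (c := cc) (s := false) (G := G)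
    (w := fun _ => 1) (X := fn4 w U V) (Y := fn4 w X Y) (A := A) (B := B) (e1 := fun _ => (e : ℝ))
    (e2 := fun _ => (e' : ℝ)) (a := fun _ => 2 ^ r) (a' := fun _ => 2 ^ r')
    (fun c hc => col4_LR h1 h2 hA' hc) (fun c hc => col4_LR h3 h4 hB' hc)
    (fun c hc i hi => by
      have := col4_DB h1 h2 d1 d2 hA' hc hi
      exact_mod_cast this)
    (fun c hc i hi => by
      have := col4_DB h3 h4 d3 d4 hB' hc hi
      exact_mod_cast this)
    (fun _ _ => Nat.cast_nonneg _) (fun _ _ => Nat.cast_nonneg _) (fun _ _ => by positivity)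
    (fun _ _ => by positivity)
    (fun c _ => by
      unfold Helper25.SH.Mat.sgr
      rw [cond_false, one_mul, mul_one, hG])
  have e0 : ((eZ n (4 * len w) (2 * cc) r r' e e' : ℕ) : ℝ) =
      eP n (4 * len w) (2 * (cc : ℝ)) (fun _ => 2 ^ r) (fun _ => 2 ^ r') (fun _ => (e : ℝ)) (fun _ => (e' : ℝ)) := by
    show ((2 * cc * (n * (4 * len w * (2 ^ r * e' + 2 ^ r' * e + e * e'))) : ℕ) : ℝ) = _
    unfold eP
    rw [Finset.sum_const, Finset.card_range, nsmul_eq_mul]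
    push_cast
    ring
  rw [e0]
  refine LB.congr k (fun v hv => ?_) (fun v _ => rfl)
  rw [hg v hv, ← fn4_sum]
  exact Finset.sum_congr rfl fun c _ => (one_mul _).symm

end block

section

variable {c : CD} {b s t R' N K L K' M D e cc : ℕ} {e1 e2 : ℤ} {zA zB : ℕ → FP} {G : ℝ}

/-- packed column of the rounded windows of the rows `zA`, `zB` of `gA`, `gB` -/
def cZ (b t K' : ℕ) (zA zB : ℕ → FP) : ℕ → ℕ :=
  col4 b (Nat.add K' 2) (fun i => flF b t (winF b (Nat.add K' 2) (zA i))) (fun i => flF b t (winF b (Nat.add K' 2) (zB i)))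

/-- **the block, two scales** -/
theorem NF_LBz (hK : ¬ Even K) (hL : Even L) (hK' : K ≤ K') (hL' : L ≤ K') (hM : K' ≤ M) (hN : K' + 2 ≤ N) (hD : 0 < D)
    (hη : c.P.eta = ((e1 : ℂ) + e2 * Complex.I) / D)
    (hA : CR b (s + t) (nt K L) N (fun v n => gA c M (pV K L v) (rV K L v) (sV K v) n) zA e ∧
      DB b (nt K L) N (2 ^ (s + t + 7)) zA)
    (hB : CR b (s + t) (nt K L) N (fun v n => gB c M (pV K L v) (rV K L v) (sV K v) n) zB e ∧
      DB b (nt K L) N (2 ^ (s + t + 7)) zB)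
    (hb : 2 * s + 7 ≤ b) (ht : t ≤ b) (hs : 2 ≤ s) (hR' : okR3 s R' = true)
    (he : e1.natAbs + e2.natAbs ≤ D) (hG : G = 2 * cc) :
    LB (nt K L) (G * (2 ^ s * 2 ^ s))
      (fun v => NF c.P.ps (M + 3) (C1 c.P (pV K L v) (rV K L v) (sV K v)) (C2 c.P (pV K L v) (rV K L v) (sV K v)))
      (fun v => Helper25.SH.Mat.Blk.val b (nt K L) v (.bl false cc (4 * len (K' + 2)) (mkL (cG b s R' K' K L D e1 e2) (nt K L) 0)
        (mkL (cZ b t K' zA zB) (nt K L) 0)))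
      ((eZ (nt K L) (4 * len (K' + 2)) (2 * cc) (s + 7) (s + 7) 18 (Nat.add (Nat.div e (Nat.pow 2 t)) 3) : ℕ) : ℝ) := by
  obtain ⟨c1, d1⟩ := G1_CR (c := c) hK hL hK' hL' (le_refl (K' + 2)) hD he hη hb hs hR'
  obtain ⟨c2, d2⟩ := G2_CR (c := c) hK hL hK' hL' (le_refl (K' + 2)) hD he hη hb hs hR'
  have w3 := hA.1.window hN
  have w4 := hB.1.window hN
  have c3 := CR_flz w3 ht
  have c4 := CR_flz w4 ht
  have d3 := DB_flz (m := s + 7) w3 ht (by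
    have := DB.window hA.1 hA.2 hN
    rwa [show s + t + 7 = s + 7 + t by ring] at this)
  have d4 := DB_flz (m := s + 7) w4 ht (by
    have := DB.window hB.1 hB.2 hN
    rwa [show s + t + 7 = s + 7 + t by ring] at this)
  exact LB_dtz c1 c2 c3 c4 d1 d2 d3 d4 rfl rfl hG fun v _ => NF_edge hM (G1A_V c.P hK' hL' v) (G2A_V c.P hK' hL' v)

end

/-! ### records: the tables and the rows -/

/-- the data of the kernel of a record -/
def kdR (R : Rec) : KD := ⟨R.d, R.k, 100000, R.pc, R.ps, R.ph.toNat⟩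

theorem hph_R {R : Rec} {C : Crt} (h : R.ok C = true) :
    ee R.cb.ph = -((((kdR R).c : ℂ) + Complex.I * (kdR R).sn) / (kdR R).h) := by
  have h1 := Helper49.Cell.ee_phase h
  have h2 : 0 < R.ph := by
    unfold Rec.ok at h
    simp only [bif_iff] at h
    obtain ⟨h0, hA, _⟩ := h
    have hA : 16 * (R.e1 * R.e1 + R.e2 * R.e2) ≤ 10000000000 ∧ R.d.natAbs + R.k.natAbs ≤ 100000 ∧ 0 < R.nu ∧ R.lam ≤ R.m ∧
      R.m ≤ 100000 ∧ 4 * (R.e1 * R.e1 + R.e2 * R.e2) ≤ (100000 - R.m) * (100000 - R.m) ∧ 0 < R.ph ∧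
      R.pc * R.pc + R.ps * R.ps = R.ph * R.ph := of_decide_eq_true hA
    exact hA.2.2.2.2.2.2.1
  have h3 : (((kdR R).h : ℕ) : ℂ) = (R.ph : ℂ) := by
    show ((R.ph.toNat : ℕ) : ℂ) = (R.ph : ℂ)
    have : ((R.ph.toNat : ℕ) : ℤ) = R.ph := Int.toNat_of_nonneg h2.le
    exact_mod_cast this
  rw [h3]
  exact h1

/-- parameters of the tables -/
structure NQ where
  P : KQ
  V : ℕ
  PP : ℕ
  N : ℕ
  Q : ℕ
  R3 : ℕ
  t : ℕ
  s : ℕ
  e0 : ℕ
  e : ℕ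

/-- the checks -/
def okTA (R : Rec) (q : NQ) (W : ℕ) : Bool := okH q.P (ngK (kdR R)) q.t q.s q.V q.PP W q.N q.Q q.e0 q.e
def okTB (R : Rec) (q : NQ) (W : ℕ) : Bool := okH q.P (kdR R) q.t q.s q.V q.PP W q.N q.Q q.e0 q.e
/-- the tables -/
def tA (R : Rec) (q : NQ) (W : ℕ) : ℕ → FP := tH q.P (ngK (kdR R)) q.t q.V q.PP W q.N q.Q
def tB (R : Rec) (q : NQ) (W : ℕ) : ℕ → FP := tH q.P (kdR R) q.t q.V q.PP W q.N q.Q
/-- the rows -/
def nzA (R : Rec) (q : NQ) (W K L : ℕ) (T : ℕ → FP) : ℕ → FP :=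
  rowN false q.P.b (Nat.succ q.s) q.R3 q.N W K L 100000 R.e1 R.e2 T
def nzB (R : Rec) (q : NQ) (W K L : ℕ) (T : ℕ → FP) : ℕ → FP :=
  rowN true q.P.b (Nat.succ q.s) q.R3 q.N W K L 100000 R.e1 R.e2 T

section

variable {R : Rec} {C : Crt} {h : R.ok C = true} {K0 : ℕ} {le : Helper70.SH.Len R K0} {s0 : ℕ} {q : NQ} {K L K' W M : ℕ}

/-- **the rows of `gA`** -/
theorem zA_R (hK : ¬ Even K) (hL : Even L) (hK' : K ≤ K') (hL' : L ≤ K') (hM : K' ≤ M) (hW : W = K' + 3)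
    (hN : K' + 2 ≤ q.N) (he : R.e1.natAbs + R.e2.natAbs ≤ 100000) (hT : okTA R q W = true)
    (hR : okR3 (q.s + 1) q.R3 = true) :
    CR q.P.b (q.s + 1) (nt K L) q.N (fun v n => gA (cd R h le s0) M (pV K L v) (rV K L v) (sV K v) n)
      (nzA R q W K L (tA R q W)) (24 * q.e + 62) ∧
      DB q.P.b (nt K L) q.N (2 ^ (q.s + 1 + 7)) (nzA R q W K L (tA R q W)) := by
  have k := TabH_A (hph_R h) hT
  have e1 : (((kdR R).dn : ℤ) : ℝ) / (((kdR R).D : ℕ) : ℝ) = (R.d : ℝ) / 100000 := by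
    show (R.d : ℝ) / ((100000 : ℕ) : ℝ) = _
    norm_num
  have e2 : (((kdR R).kn : ℤ) : ℝ) / (((kdR R).D : ℕ) : ℝ) = (R.k : ℝ) / 100000 := by
    show (R.k : ℝ) / ((100000 : ℕ) : ℝ) = _
    norm_num
  rw [e1, e2] at k
  exact Helper87.SH.rowA_CR hK hL hK' hL' hM hW hN he k hR

/-- **the rows of `gB`** -/
theorem zB_R (hK : ¬ Even K) (hL : Even L) (hK' : K ≤ K') (hL' : L ≤ K') (hM : K' ≤ M) (hW : W = K' + 3)
    (hN : K' + 2 ≤ q.N) (he : R.e1.natAbs + R.e2.natAbs ≤ 100000) (hT : okTB R q W = true)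
    (hR : okR3 (q.s + 1) q.R3 = true) :
    CR q.P.b (q.s + 1) (nt K L) q.N (fun v n => gB (cd R h le s0) M (pV K L v) (rV K L v) (sV K v) n)
      (nzB R q W K L (tB R q W)) (24 * q.e + 62) ∧
      DB q.P.b (nt K L) q.N (2 ^ (q.s + 1 + 7)) (nzB R q W K L (tB R q W)) := by
  have k := TabH_B (hph_R h) hT
  have e1 : (((kdR R).dn : ℤ) : ℝ) / (((kdR R).D : ℕ) : ℝ) = (R.d : ℝ) / 100000 := by
    show (R.d : ℝ) / ((100000 : ℕ) : ℝ) = _
    norm_num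
  have e2 : (((kdR R).kn : ℤ) : ℝ) / (((kdR R).D : ℕ) : ℝ) = (R.k : ℝ) / 100000 := by
    show (R.k : ℝ) / ((100000 : ℕ) : ℝ) = _
    norm_num
  rw [e1, e2] at k
  exact Helper87.SH.rowB_CR hK hL hK' hL' hM hW hN he k hR

end

/-! ### records: the block -/

/-- the block at the base `bM` -/
def nzK (R : Rec) (b s t R3' K' K L : ℕ) (zA zB : ℕ → FP) (bM mm cc : ℕ) : Helper25.SH.Mat.Blk :=
  .bl false cc (Nat.mul 4 (len (Nat.add K' 2)))
    (wid b bM mm (Nat.mul 4 (len (Nat.add K' 2))) (mkL (cG b s R3' K' K L 100000 R.e1 R.e2) (nt K L) 0))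
    (wid b bM mm (Nat.mul 4 (len (Nat.add K' 2))) (mkL (cZ b t K' zA zB) (nt K L) 0))
/-- the error -/
def nzE (K' K L cc s t e : ℕ) : ℕ :=
  eZ (nt K L) (Nat.mul 4 (len (Nat.add K' 2))) (Nat.mul 2 cc) (Nat.add s 7) (Nat.add s 7) 18
    (Nat.add (Nat.div e (Nat.pow 2 t)) 3)

/-- **the field `nf` for a record** -/
theorem LBB_NFz {R : Rec} {C : Crt} {h : R.ok C = true} {K0 : ℕ} {le : Helper70.SH.Len R K0} {s0 : ℕ}
    {b s t R3' N K H K' e cc bM mm : ℕ} {zA zB : ℕ → FP} {S : ℝ}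
    (hK : ¬ Even K) (hK' : max K (2 * H) = K') (hN : K' + 2 ≤ N)
    (hA : CR b (s + t) (nt K (2 * H)) N
      (fun v n => gA (cd R h le s0) K' (pV K (2 * H) v) (rV K (2 * H) v) (sV K v) n) zA e ∧
      DB b (nt K (2 * H)) N (2 ^ (s + t + 7)) zA)
    (hB : CR b (s + t) (nt K (2 * H)) N
      (fun v n => gB (cd R h le s0) K' (pV K (2 * H) v) (rV K (2 * H) v) (sV K v) n) zB e ∧
      DB b (nt K (2 * H)) N (2 ^ (s + t + 7)) zB)
    (hb' : 2 * s + 7 ≤ b) (ht : t ≤ b) (hs : 2 ≤ s) (hR' : okR3 s R3' = true) (he : R.e1.natAbs + R.e2.natAbs ≤ 100000)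
    (hb : b ≤ bM) (hm : 4 * len (K' + 2) ≤ 2 ^ mm) (hS : S = 2 * cc * (2 ^ s * 2 ^ s)) :
    LBB bM (nt K (2 * H)) S (fun v => gNF (cd R h le s0) K H (max K (2 * H)) v)
      [nzK R b s t R3' K' K (2 * H) zA zB bM mm cc] ((nzE K' K (2 * H) cc s t e : ℕ) : ℝ) := by
  subst hK'
  have k1 := NF_LBz (c := cd R h le s0) (M := max K (2 * H)) (K' := max K (2 * H)) (cc := cc)
    (G := 2 * (cc : ℝ)) (e1 := R.e1) (e2 := R.e2) (D := 100000) hK
    (even_two_mul H) (le_max_left _ _) (le_max_right _ _) le_rfl hN (by norm_num) (by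
    rw [Helper70.SH.cd_P, Helper70.SH.par_eta]
    push_cast
    ring) hA hB hb' ht hs hR' he rfl
  rw [hS]
  refine LBB.one (LB.congr k1 (fun v _ => rfl) fun v _ => ?_)
  exact val_wid_bl hb hm (by rw [mkL_length]) (by rw [mkL_length]) false cc v

end Pool.Agent.Helper77.NS
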